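import Pool.Agent.H21.TY.Main

/-!
In every large admissible set many `m`-subsets, and in a subset of positive proportion almost all
`m`-subsets, satisfy the prime tuples conjecture in the exact form, for the primes of one colour.
-/

namespace Pool.Agent.Results.MP_8923e7_nt.AlmostAllSubsets

/-- For every `F ⊆ B` there are infinitely many `N` such that, for all `a ∈ B`, `N + a` is a prime of
colour `i` if and only if `a ∈ F`. -/
def Shattered {r : ℕ} (col : ℕ → Fin r) (i : Fin r) (B : Finset ℕ) : Prop :=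
  ∀ F : Finset ℕ, F ⊆ B →
    {N : ℕ | ∀ a ∈ B, ((N + a).Prime ∧ col (N + a) = i) ↔ a ∈ F}.Infinite

/-- `H` is admissible: for every prime `p` some translate of `H` contains no multiple of `p`. -/
def Admissible (H : Finset ℕ) : Prop :=
  ∀ p : ℕ, p.Prime → ∃ a : ℕ, ∀ h ∈ H, ¬ p ∣ a + h

open Classical in
/-- The number of the shattered `m`-subsets of `H`. -/
noncomputable def count {r : ℕ} (col : ℕ → Fin r) (i : Fin r) (H : Finset ℕ) (m : ℕ) : ℕ :=
  ((H.powersetCard m).filter (fun B => Shattered col i B)).card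

theorem result (r : ℕ) :
    (∃ C : ℝ, 0 < C ∧ ∀ H : Finset ℕ, Admissible H → ∀ (col : ℕ → Fin r) (m : ℕ), 1 ≤ m →
      (C * m) ^ (2 * m) ≤ (H.card : ℝ) →
      ∃ i : Fin r, (H.card.choose m : ℝ) / (C * m) ^ m ≤ (count col i H m : ℝ)) ∧
    (∀ m : ℕ, 2 ≤ m → ∃ c : ℝ, 0 < c ∧ ∀ ε : ℝ, 0 < ε → ε ≤ 1 → ∀ H : Finset ℕ, Admissible H →
      Real.exp (1 / (c * ε ^ 3)) ≤ (H.card : ℝ) → ∀ col : ℕ → Fin r,
      ∃ (i : Fin r) (S : Finset ℕ), S ⊆ H ∧ c * ε ^ 2 * (H.card : ℝ) ≤ (S.card : ℝ) ∧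
        (1 - ε) * (S.card.choose m : ℝ) ≤ (count col i S m : ℝ)) := by
  constructor
  · obtain ⟨C, hC, h⟩ := Pool.Agent.H21.TX.shatter_density r
    exact ⟨C, hC, fun H hH col m hm hk => h H hH col m hm hk⟩
  · intro m hm
    obtain ⟨c, hc, h⟩ := Pool.Agent.H21.TY.almost_all r m hm
    exact ⟨c, hc, fun ε hε hε1 H hH hk col => h ε hε hε1 H hH hk col⟩

end Pool.Agent.Results.MP_8923e7_nt.AlmostAllSubsets
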