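import Pool.Agent.H61.GQ.FinV

/-!
# MP_8923e7_nt: Chen's theorem for almost all tuples at every scale

Almost all admissible `k`-tuples `a` of numbers `≤ L`, for EVERY scale `L ≤ (log X)^A`: all the `N + a_j` are almost primes
(at most two prime factors, each larger than the eighth root) and 26 per cent of them are primes, and every index `j` occurs,
with the order of magnitude of Hardy and Littlewood for the number of `N ≤ X`.
-/

namespace Pool.Agent.Results.MP_8923e7_nt.AlmostAllTuples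

open Finset

/-- for every prime `p` there is `b` such that `p` divides none of the `b + a_j` -/
def Admissible {k : ℕ} (a : Fin k → ℕ) : Prop :=
  ∀ p : ℕ, p.Prime → ∃ b : ℕ, ∀ j, ¬ p ∣ b + a j

/-- at most two prime factors, counted with multiplicity, and all of them larger than `n^(1/8)` -/
def AlmostPrime (n : ℕ) : Prop :=
  2 ≤ n ∧ n.primeFactorsList.length ≤ 2 ∧ ∀ p : ℕ, p.Prime → p ∣ n → n < p ^ 8

open Classical in
/-- the number of `N ≤ X` such that all the `N + a_j` are almost primes and exactly those with `j ∈ E` are primes of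
colour `i` -/
noncomputable def count {r k : ℕ} (χ : ℕ → Fin r) (a : Fin k → ℕ) (i : Fin r) (E : Finset (Fin k))
    (X : ℕ) : ℕ :=
  ((Icc 1 X).filter fun N => (∀ j, AlmostPrime (N + a j)) ∧
    ∀ j, ((N + a j).Prime ∧ χ (N + a j) = i) ↔ j ∈ E).card

open Classical in
/-- some pair `(i, E)` attained by at least `t` of the `N ≤ X` has `|E| ≥ 13k/(50r)`, and the pairs attained by at least
`t` of the `N ≤ X` cover every index with weight `(13/50 - η)/r`, for suitable weights with sum at most `1` -/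
def ManyPrimes {r k : ℕ} (χ : ℕ → Fin r) (η t : ℝ) (a : Fin k → ℕ) (X : ℕ) : Prop :=
  (∃ (i : Fin r) (E : Finset (Fin k)), 13 * k ≤ 50 * r * E.card ∧ t ≤ (count χ a i E X : ℝ)) ∧
  ∃ w : Fin r → Finset (Fin k) → ℝ, (∀ i E, 0 ≤ w i E) ∧ ∑ i, ∑ E, w i E ≤ 1 ∧
    (∀ j, (13 / 50 - η) / r ≤ ∑ i, ∑ E ∈ univ.filter (fun E => j ∈ E), w i E) ∧
    ∀ i E, 0 < w i E → t ≤ (count χ a i E X : ℝ)

open Classical in
private theorem many {r k : ℕ} (hk : 1 ≤ k) (hr : 1 ≤ r) (χ : ℕ → Fin r) (η η' t : ℝ) (a : Fin k → ℕ)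
    (X : ℕ) (hη1 : η' ≤ η) (hη2 : η' ≤ 1 / (100 * k))
    (h : Pool.Agent.H61.GQ.Cov ((13 / 50 - η') / r) (Pool.Agent.H61.GQ.att χ a X t)) :
    ManyPrimes χ η t a X := by
  have hrR : (1 : ℝ) ≤ r := by exact_mod_cast hr
  have hkR : (1 : ℝ) ≤ k := by exact_mod_cast hk
  obtain ⟨w, hw0, hw1, hw2, hw3⟩ := h
  have hw3' : ∀ i E, 0 < w i E → t ≤ (count χ a i E X : ℝ) := by
    intro i E hE
    have h1 := hw3 i E hE
    rw [Pool.Agent.H61.GQ.att, mem_filter] at h1
    exact h1.2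
  have hcov : ∀ j, (13 / 50 - η) / r ≤ ∑ i, ∑ E ∈ univ.filter (fun E => j ∈ E), w i E := by
    intro j
    refine le_trans ?_ (hw2 j)
    gcongr
  refine ⟨?_, w, hw0, hw1, hcov, hw3'⟩
  by_contra hno
  push Not at hno
  have hsmall : ∀ i E, 0 < w i E → (E.card : ℝ) ≤ 13 * (k : ℝ) / (50 * r) - 1 / (50 * r) := by
    intro i E hE
    have h2 : 50 * r * E.card < 13 * k := by
      by_contra hlt
      push Not at hlt
      exact absurd (hw3' i E hE) (not_le.2 (hno i E hlt))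
    have h4 : (50 * r * (E.card : ℝ)) + 1 ≤ 13 * k := by exact_mod_cast h2
    rw [← sub_div, le_div_iff₀ (by positivity)]
    linarith
  have hdc : ∑ j : Fin k, ∑ i, ∑ E ∈ univ.filter (fun E => j ∈ E), w i E =
      ∑ i, ∑ E, w i E * (E.card : ℝ) := by
    rw [Finset.sum_comm]
    refine Finset.sum_congr rfl fun i _ => ?_
    simp only [Finset.sum_filter]
    rw [Finset.sum_comm]
    refine Finset.sum_congr rfl fun E _ => ?_
    rw [← Finset.sum_filter, Finset.sum_const, nsmul_eq_mul, mul_comm]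
    congr 2
    rw [Finset.filter_mem_eq_inter, Finset.univ_inter]
  have h3 : k * ((13 / 50 - η') / r) ≤ ∑ i, ∑ E, w i E * (E.card : ℝ) := by
    rw [← hdc]
    calc k * ((13 / 50 - η') / r) = ∑ _j : Fin k, (13 / 50 - η') / r := by
          rw [Finset.sum_const, Finset.card_univ, Fintype.card_fin, nsmul_eq_mul]
      _ ≤ _ := Finset.sum_le_sum fun j _ => hw2 j
  have hL0 : (0 : ℝ) ≤ 13 * (k : ℝ) / (50 * r) - 1 / (50 * r) := by
    rw [← sub_div]
    apply div_nonneg _ (by positivity)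
    linarith
  have h4 : ∑ i, ∑ E, w i E * (E.card : ℝ) ≤ 13 * (k : ℝ) / (50 * r) - 1 / (50 * r) := by
    calc ∑ i, ∑ E, w i E * (E.card : ℝ)
        ≤ ∑ i, ∑ E, w i E * (13 * (k : ℝ) / (50 * r) - 1 / (50 * r)) := by
          refine sum_le_sum fun i _ => sum_le_sum fun E _ => ?_
          rcases (hw0 i E).eq_or_lt with h0 | h0
          · rw [← h0]; simp
          · exact mul_le_mul_of_nonneg_left (hsmall i E h0) h0.le
      _ = (∑ i, ∑ E, w i E) * (13 * (k : ℝ) / (50 * r) - 1 / (50 * r)) := by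
          simp only [← Finset.sum_mul]
      _ ≤ 1 * (13 * (k : ℝ) / (50 * r) - 1 / (50 * r)) :=
          mul_le_mul_of_nonneg_right hw1 hL0
      _ = _ := one_mul _
  have h5 : (k : ℝ) * ((13 / 50 - η') / r) = 13 * k / (50 * r) - k * η' / r := by
    field_simp
  have h6 : (k : ℝ) * η' / r ≤ 1 / (100 * r) := by
    rw [div_le_div_iff₀ (by positivity) (by positivity)]
    have h7 : (k : ℝ) * η' ≤ 1 / 100 := by
      calc (k : ℝ) * η' ≤ k * (1 / (100 * k)) := mul_le_mul_of_nonneg_left hη2 (by linarith)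
        _ = 1 / 100 := by field_simp
    nlinarith
  have h7 : (1 : ℝ) / (100 * r) < 1 / (50 * r) := by
    rw [div_lt_div_iff₀ (by positivity) (by positivity)]
    linarith
  linarith

open Classical in
theorem result : ∀ k r : ℕ, 1 ≤ k → 1 ≤ r → ∀ η : ℝ, 0 < η → ∃ K : ℕ, ∀ A : ℝ, 0 < A →
    ∃ (c : ℝ) (X₀ : ℕ), 0 < c ∧ ∀ X : ℕ, X₀ ≤ X → ∀ L : ℕ, (L : ℝ) ≤ Real.log X ^ A →
      ∀ ε : ℝ, 0 < ε → ε ≤ 1 → (K : ℝ) ≤ ε ^ K * L → ∀ χ : ℕ → Fin r,
      (((Fintype.piFinset fun _ : Fin k => Icc 1 L).filter fun a => Admissible a ∧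
        ¬ ManyPrimes χ η (c * (ε * min 1 ((L : ℝ) / Real.log X)) ^ K *
          (X / Real.log X ^ k)) a X).card : ℝ) ≤ ε * (L : ℝ) ^ k := by
  intro k r hk hr η hη
  obtain ⟨k', rfl⟩ : ∃ k', k = k' + 1 := ⟨k - 1, by omega⟩
  obtain ⟨η', hη'⟩ : ∃ η' : ℝ, η' = min η (1 / (100 * ((k' + 1 : ℕ) : ℝ))) := ⟨_, rfl⟩
  have hη0 : 0 < η' := by
    rw [hη']
    exact lt_min hη (by positivity)
  have hη1 : η' ≤ η := by
    rw [hη']
    exact min_le_left _ _
  have hη2 : η' ≤ 1 / (100 * ((k' + 1 : ℕ) : ℝ)) := by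
    rw [hη']
    exact min_le_right _ _
  obtain ⟨K, -, h⟩ := Pool.Agent.H61.GQ.aatv k' r hr η' hη0
  refine ⟨K, fun A hA => ?_⟩
  obtain ⟨c, X0, hc, h1⟩ := h A hA
  refine ⟨c, X0, hc, fun X hX L hLA ε hε hε1 hKL χ => ?_⟩
  refine le_trans ?_ (h1 X hX L hLA ε hε hε1 hKL χ)
  have hsub : (Fintype.piFinset fun _ : Fin (k' + 1) => Icc 1 L).filter (fun a => Admissible a ∧
      ¬ ManyPrimes χ η (c * (ε * min 1 ((L : ℝ) / Real.log X)) ^ K *
        (X / Real.log X ^ (k' + 1))) a X) ⊆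
      (Fintype.piFinset fun _ : Fin (k' + 1) => Icc 1 L).filter (fun a =>
        Pool.Agent.H61.UN.Admv a ∧ ¬ Pool.Agent.H61.GQ.Cov ((13 / 50 - η') / r)
          (Pool.Agent.H61.GQ.att χ a X (c * (ε * min 1 ((L : ℝ) / Real.log X)) ^ K *
            (X / Real.log X ^ (k' + 1))))) := by
    intro a ha
    rw [mem_filter] at ha ⊢
    exact ⟨ha.1, ha.2.1, fun hq => ha.2.2 (many hk hr χ η η' _ a X hη1 hη2 hq)⟩
  exact_mod_cast card_le_card hsub

end Pool.Agent.Results.MP_8923e7_nt.AlmostAllTuples
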