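import Pool.Agent.H21.CP.Med
import Pool.Agent.H21.CP.Gq
import Pool.Agent.H21.QT.Cm

/-!
For almost all admissible `k`-tuples all the `N + a_j` are almost primes (at most two prime factors, all of
them large) and more than a quarter of them (26 per cent) are primes, for infinitely many `N`; every index
occurs.
-/

namespace Pool.Agent.H21.Old.ChenTuples

open Finset

/-- for every prime `p` there is `b` such that `p` divides none of the `b + a_j` -/
def Admissible {k : ℕ} (a : Fin k → ℤ) : Prop :=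
  ∀ p : ℕ, p.Prime → ∃ b : ℤ, ∀ j, ¬ (p : ℤ) ∣ b + a j

/-- at most two prime factors, counted with multiplicity, and all of them larger than `n^(1/8)` -/
def AlmostPrime (n : ℕ) : Prop :=
  2 ≤ n ∧ n.primeFactorsList.length ≤ 2 ∧ ∀ p : ℕ, p.Prime → p ∣ n → n < p ^ 8

/-- the `j` such that `N + a_j` is a prime of colour `i` are exactly the elements of `E` -/
def Pattern {r k : ℕ} (c : ℕ → Fin r) (a : Fin k → ℤ) (i : Fin r) (E : Finset (Fin k)) (N : ℕ) :
    Prop :=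
  ∀ j, (((N : ℤ) + a j).toNat.Prime ∧ c ((N : ℤ) + a j).toNat = i) ↔ j ∈ E

/-- for every subset `E'` of `E` there are infinitely many `N` with pattern `E'` for which all the `N + a_j` with
`j` not in `E \ E'` are almost primes -/
def Realised {r k : ℕ} (c : ℕ → Fin r) (a : Fin k → ℤ) (i : Fin r) (E : Finset (Fin k)) : Prop :=
  ∀ E' : Finset (Fin k), E' ⊆ E → {N : ℕ | Pattern c a i E' N ∧
    ∀ j, (j ∈ E → j ∈ E') → AlmostPrime ((N : ℤ) + a j).toNat}.Infinite

/-- some realised `(i, E)` has `|E| ≥ 13k/(50r)`, and the realised pairs cover every index with weight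
`(13/50 - η)/r`, for suitable weights with sum at most `1` -/
def ManyPrimes {r k : ℕ} (η : ℝ) (c : ℕ → Fin r) (a : Fin k → ℤ) : Prop :=
  (∃ (i : Fin r) (E : Finset (Fin k)), 13 * (k : ℝ) / (50 * r) ≤ E.card ∧ Realised c a i E) ∧
  ∃ w : Fin r → Finset (Fin k) → ℝ, (∀ i E, 0 ≤ w i E) ∧ ∑ i, ∑ E, w i E ≤ 1 ∧
    (∀ j, (13 / 50 - η) / r ≤ ∑ i, ∑ E ∈ univ.filter (fun E => j ∈ E), w i E) ∧
    ∀ i E, 0 < w i E → Realised c a i E

/-- for infinitely many `N` two of the `N + a_j` are consecutive primes and all are almost primes -/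
def ConsecutivePair {k : ℕ} (a : Fin k → ℤ) : Prop :=
  ∃ i j, a i < a j ∧ {N : ℕ | ((N : ℤ) + a i).toNat.Prime ∧ ((N : ℤ) + a j).toNat.Prime ∧
    (∀ z : ℤ, a i < z → z < a j → ¬ ((N : ℤ) + z).toNat.Prime) ∧
    ∀ l, AlmostPrime ((N : ℤ) + a l).toNat}.Infinite

/-- `m` of the `a_j` form a set `B` such that the elements of `N + B` are consecutive primes for infinitely
many `N` -/
def Consecutive {k : ℕ} (m : ℕ) (a : Fin k → ℤ) : Prop :=
  ∃ B : Finset ℤ, (∀ x ∈ B, ∃ j, a j = x) ∧ B.card = m ∧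
    {N : ℕ | ∀ z : ℤ, (∃ x ∈ B, ∃ y ∈ B, x ≤ z ∧ z ≤ y) →
      (((N : ℤ) + z).toNat.Prime ↔ z ∈ B)}.Infinite

open Classical in
private theorem part1 :
    ∀ (r k : ℕ) (η : ℝ), 1 ≤ k → 0 < η → ∃ δ C : ℝ, 0 < δ ∧
      ∀ (c : ℕ → Fin r) (n : ℕ) (A : Fin k → Finset ℤ), 1 ≤ n → (∀ j, (A j).card ≤ n) →
        (((Fintype.piFinset A).filter
          (fun a => Admissible a ∧ ¬ ManyPrimes η c a)).card : ℝ) ≤ C * (n : ℝ) ^ ((k : ℝ) - δ) := by
  intro r k η hk hη
  have hkR : (1 : ℝ) ≤ k := by exact_mod_cast hk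
  set η' : ℝ := min η (1 / (100 * k)) with hη'
  have hη'0 : 0 < η' := lt_min hη (by positivity)
  have hη'1 : η' ≤ η := min_le_left _ _
  have hη'2 : η' ≤ 1 / (100 * k) := min_le_right _ _
  obtain ⟨δ, C, hδ, _, hC, h⟩ := Pool.Agent.H21.CP.quarter_chen (13 / 50) Pool.Agent.H21.CP.Q2
    Pool.Agent.H21.CP.Q2_prime r k hk (Pool.Agent.H21.CP.med k hk) η' hη'0
  refine ⟨δ, C, hδ, fun c n A hn hA => ?_⟩
  have hr : 1 ≤ r := lt_of_le_of_lt (Nat.zero_le _) (c 0).2
  have hrR : (1 : ℝ) ≤ r := by exact_mod_cast hr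
  have hreal : ∀ (a : Fin k → ℤ) i E, Pool.Agent.H21.CP.ReaQ Pool.Agent.H21.CP.Q2 c a i E →
      Realised c a i E := fun _ _ _ h => h
  refine le_trans ?_ (h c n A hn hA)
  have hsub : (Fintype.piFinset A).filter (fun a => Admissible a ∧ ¬ ManyPrimes η c a) ⊆
      (Fintype.piFinset A).filter (fun a => Pool.Agent.H21.QT.AdT a ∧
        ¬ Pool.Agent.H21.CP.QuarterQ (13 / 50) Pool.Agent.H21.CP.Q2 η' c a) := by
    intro a ha
    rw [mem_filter] at ha ⊢
    refine ⟨ha.1, ha.2.1, fun hq => ha.2.2 ?_⟩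
    obtain ⟨w, hw0, hw1, hw2, hw3⟩ := hq
    have hcov : ∀ j, (13 / 50 - η) / r ≤ ∑ i, ∑ E ∈ univ.filter (fun E => j ∈ E), w i E := by
      intro j
      refine le_trans ?_ (hw2 j)
      gcongr
    refine ⟨?_, w, hw0, hw1, hcov, fun i E hE => hreal a i E (hw3 i E hE)⟩
    -- a large realised set
    by_contra hno
    push Not at hno
    have hsmall : ∀ i E, 0 < w i E → (E.card : ℝ) ≤ 13 * (k : ℝ) / (50 * r) - 1 / (50 * r) := by
      intro i E hE
      have h1 : (E.card : ℝ) < 13 * (k : ℝ) / (50 * r) := by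
        by_contra hlt
        push Not at hlt
        exact hno i E hlt (hreal a i E (hw3 i E hE))
      rw [lt_div_iff₀ (by positivity)] at h1
      have h2 : E.card * (50 * r) < 13 * k := by exact_mod_cast h1
      have h3 : E.card * (50 * r) + 1 ≤ 13 * k := h2
      have h4 : (E.card : ℝ) * (50 * r) + 1 ≤ 13 * k := by exact_mod_cast h3
      rw [← sub_div, le_div_iff₀ (by positivity)]
      linarith
    have hdc : ∑ j : Fin k, ∑ i, ∑ E ∈ univ.filter (fun E => j ∈ E), w i E =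
        ∑ i, ∑ E, w i E * (E.card : ℝ) := by
      rw [Finset.sum_comm]
      refine Finset.sum_congr rfl fun i _ => ?_
      simp only [Finset.sum_filter]
      rw [Finset.sum_comm]
      refine Finset.sum_congr rfl fun E _ => ?_
      rw [← Finset.sum_filter, Finset.sum_const, nsmul_eq_mul, mul_comm]
      congr 2
      rw [Finset.filter_mem_eq_inter, Finset.univ_inter]
    have h3 : k * ((13 / 50 - η') / r) ≤ ∑ i, ∑ E, w i E * (E.card : ℝ) := by
      rw [← hdc]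
      calc k * ((13 / 50 - η') / r) = ∑ _j : Fin k, (13 / 50 - η') / r := by
            rw [Finset.sum_const, Finset.card_univ, Fintype.card_fin, nsmul_eq_mul]
        _ ≤ _ := Finset.sum_le_sum fun j _ => hw2 j
    have hL0 : (0 : ℝ) ≤ 13 * (k : ℝ) / (50 * r) - 1 / (50 * r) := by
      rw [← sub_div]
      apply div_nonneg _ (by positivity)
      linarith
    have h4 : ∑ i, ∑ E, w i E * (E.card : ℝ) ≤ 13 * (k : ℝ) / (50 * r) - 1 / (50 * r) := by
      calc ∑ i, ∑ E, w i E * (E.card : ℝ)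
          ≤ ∑ i, ∑ E, w i E * (13 * (k : ℝ) / (50 * r) - 1 / (50 * r)) := by
            refine sum_le_sum fun i _ => sum_le_sum fun E _ => ?_
            rcases (hw0 i E).eq_or_lt with h0 | h0
            · rw [← h0]; simp
            · exact mul_le_mul_of_nonneg_left (hsmall i E h0) h0.le
        _ = (∑ i, ∑ E, w i E) * (13 * (k : ℝ) / (50 * r) - 1 / (50 * r)) := by
            simp only [← Finset.sum_mul]
        _ ≤ 1 * (13 * (k : ℝ) / (50 * r) - 1 / (50 * r)) :=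
            mul_le_mul_of_nonneg_right hw1 hL0
        _ = _ := one_mul _
    have h5 : (k : ℝ) * ((13 / 50 - η') / r) = 13 * k / (50 * r) - k * η' / r := by
      field_simp
    have h6 : (k : ℝ) * η' / r ≤ 1 / (100 * r) := by
      rw [div_le_div_iff₀ (by positivity) (by positivity)]
      have h7 : (k : ℝ) * η' ≤ 1 / 100 := by
        calc (k : ℝ) * η' ≤ k * (1 / (100 * k)) := mul_le_mul_of_nonneg_left hη'2 (by linarith)
          _ = 1 / 100 := by field_simp
      nlinarith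
    have h7 : (1 : ℝ) / (100 * r) < 1 / (50 * r) := by
      rw [div_lt_div_iff₀ (by positivity) (by positivity)]
      linarith
    linarith
  exact_mod_cast card_le_card hsub

open Classical in
private theorem part2 :
    ∀ k : ℕ, 4 ≤ k → ∃ δ C : ℝ, 0 < δ ∧
      ∀ (n : ℕ) (A : Fin k → Finset ℤ), 1 ≤ n → (∀ j, (A j).card ≤ n) →
        (((Fintype.piFinset A).filter
          (fun a => Admissible a ∧ ¬ ConsecutivePair a)).card : ℝ) ≤ C * (n : ℝ) ^ ((k : ℝ) - δ) := by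
  intro k hk
  have hkR : (4 : ℝ) ≤ k := by exact_mod_cast hk
  obtain ⟨δ, C, hδ, _, hC, h⟩ := Pool.Agent.H21.CP.cons_chen (13 / 50) Pool.Agent.H21.CP.Q2
    Pool.Agent.H21.CP.Q2_prime k (by linarith) (Pool.Agent.H21.CP.med k (by omega))
  refine ⟨δ, C, hδ, fun n A hn hA => ?_⟩
  refine le_trans ?_ (h n A hn hA)
  have hsub : (Fintype.piFinset A).filter (fun a => Admissible a ∧ ¬ ConsecutivePair a) ⊆
      (Fintype.piFinset A).filter (fun a => Pool.Agent.H21.QT.AdT a ∧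
        ∀ i j, ¬ Pool.Agent.H21.CP.GapQ Pool.Agent.H21.CP.Q2 a i j) := by
    intro a ha
    rw [mem_filter] at ha ⊢
    refine ⟨ha.1, ha.2.1, fun i j hij => ha.2.2 ⟨i, j, hij.1, ?_⟩⟩
    refine hij.2.mono ?_
    rintro N ⟨⟨h1, h2, h3⟩, h4⟩
    exact ⟨h1, h2, h3, h4⟩
  exact_mod_cast card_le_card hsub

open Classical in
private theorem part3 :
    ∀ m k : ℕ, 2 ≤ m → 8 * m ^ 2 ≤ k → ∃ δ C : ℝ, 0 < δ ∧
      ∀ (n : ℕ) (A : Fin k → Finset ℤ), 1 ≤ n → (∀ j, (A j).card ≤ n) →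
        (((Fintype.piFinset A).filter
          (fun a => Admissible a ∧ ¬ Consecutive m a)).card : ℝ) ≤ C * (n : ℝ) ^ ((k : ℝ) - δ) := by
  intro m k hm hk
  obtain ⟨δ, C, hδ, _, hC, h⟩ := Pool.Agent.H21.QT.cons_m m k hm hk
  refine ⟨δ, C, hδ, fun n A hn hA => ?_⟩
  refine le_trans ?_ (h n A hn hA)
  have hsub : (Fintype.piFinset A).filter (fun a => Admissible a ∧ ¬ Consecutive m a) ⊆
      (Fintype.piFinset A).filter (fun a => Pool.Agent.H21.QT.AdT a ∧
        ∀ E : Finset (Fin k), (E.image a).card = m → ¬ Pool.Agent.H21.QT.ConsP (E.image a)) := by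
    intro a ha
    rw [mem_filter] at ha ⊢
    refine ⟨ha.1, ha.2.1, fun E hE hcons => ha.2.2 ⟨E.image a, ?_, hE, hcons⟩⟩
    intro x hx
    obtain ⟨j, _, hj⟩ := mem_image.1 hx
    exact ⟨j, hj⟩
  exact_mod_cast card_le_card hsub

open Classical in
theorem result (r k : ℕ) (η : ℝ) (hk : 1 ≤ k) (hη : 0 < η) : ∃ δ C : ℝ, 0 < δ ∧
    ∀ (c : ℕ → Fin r) (n : ℕ) (A : Fin k → Finset ℤ), 1 ≤ n → (∀ j, (A j).card ≤ n) →
      (((Fintype.piFinset A).filter (fun a => Admissible a ∧ ¬ (ManyPrimes η c a ∧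
        (4 ≤ k → ConsecutivePair a) ∧ ∀ m, 2 ≤ m → 8 * m ^ 2 ≤ k → Consecutive m a))).card : ℝ) ≤
        C * (n : ℝ) ^ ((k : ℝ) - δ) := by
  obtain ⟨δ1, C1, hδ1, h1⟩ := part1 r k η hk hη
  have hs2 : ∃ δ C : ℝ, 0 < δ ∧ ∀ (n : ℕ) (A : Fin k → Finset ℤ), 1 ≤ n → (∀ j, (A j).card ≤ n) →
      (((Fintype.piFinset A).filter (fun a => Admissible a ∧
        ¬ (4 ≤ k → ConsecutivePair a))).card : ℝ) ≤ C * (n : ℝ) ^ ((k : ℝ) - δ) := by
    by_cases hk4 : 4 ≤ k
    · obtain ⟨δ, C, hδ, h⟩ := part2 k hk4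
      refine ⟨δ, C, hδ, fun n A hn hA => le_trans (le_of_eq ?_) (h n A hn hA)⟩
      congr 2
      ext a
      simp [hk4]
    · refine ⟨1, 0, one_pos, fun n A hn hA => ?_⟩
      rw [zero_mul]
      have h0 : (Fintype.piFinset A).filter (fun a => Admissible a ∧
          ¬ (4 ≤ k → ConsecutivePair a)) = ∅ := by
        rw [filter_eq_empty_iff]
        intro a _ ha
        exact ha.2 fun h => absurd h hk4
      rw [h0]
      simp
  have hs3 : ∀ m, ∃ δ C : ℝ, 0 < δ ∧ ∀ (n : ℕ) (A : Fin k → Finset ℤ), 1 ≤ n →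
      (∀ j, (A j).card ≤ n) → (((Fintype.piFinset A).filter (fun a => Admissible a ∧
        ¬ (2 ≤ m → 8 * m ^ 2 ≤ k → Consecutive m a))).card : ℝ) ≤
          C * (n : ℝ) ^ ((k : ℝ) - δ) := by
    intro m
    by_cases hm : 2 ≤ m ∧ 8 * m ^ 2 ≤ k
    · obtain ⟨δ, C, hδ, h⟩ := part3 m k hm.1 hm.2
      refine ⟨δ, C, hδ, fun n A hn hA => le_trans (le_of_eq ?_) (h n A hn hA)⟩
      congr 2
      ext a
      simp [hm.1, hm.2]
    · refine ⟨1, 0, one_pos, fun n A hn hA => ?_⟩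
      rw [zero_mul]
      have h0 : (Fintype.piFinset A).filter (fun a => Admissible a ∧
          ¬ (2 ≤ m → 8 * m ^ 2 ≤ k → Consecutive m a)) = ∅ := by
        rw [filter_eq_empty_iff]
        intro a _ ha
        exact ha.2 fun h h' => absurd ⟨h, h'⟩ hm
      rw [h0]
      simp
  obtain ⟨δ2, C2, hδ2, h2⟩ := hs2
  choose δ3 C3 hδ3 h3 using hs3
  obtain ⟨δ, hδd⟩ : ∃ δ : ℝ, δ = min (min δ1 δ2) ((range (k + 1)).inf' ⟨0, by simp⟩ δ3) := ⟨_, rfl⟩
  have hδ0 : 0 < δ := by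
    rw [hδd]
    refine lt_min (lt_min hδ1 hδ2) ?_
    rw [lt_inf'_iff]
    exact fun m _ => hδ3 m
  have hd1 : δ ≤ δ1 := by
    rw [hδd]
    exact (min_le_left _ _).trans (min_le_left _ _)
  have hd2 : δ ≤ δ2 := by
    rw [hδd]
    exact (min_le_left _ _).trans (min_le_right _ _)
  have hd3 : ∀ m ∈ range (k + 1), δ ≤ δ3 m := by
    intro m hm
    rw [hδd]
    exact (min_le_right _ _).trans (inf'_le _ hm)
  refine ⟨δ, |C1| + |C2| + ∑ m ∈ range (k + 1), |C3 m|, hδ0, fun c n A hn hA => ?_⟩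
  have hn1 : (1 : ℝ) ≤ n := by exact_mod_cast hn
  have hmono : ∀ (C' δ' : ℝ), δ ≤ δ' →
      C' * (n : ℝ) ^ ((k : ℝ) - δ') ≤ |C'| * (n : ℝ) ^ ((k : ℝ) - δ) := by
    intro C' δ' h
    apply mul_le_mul (le_abs_self _) _ (by positivity) (abs_nonneg _)
    exact Real.rpow_le_rpow_of_exponent_le hn1 (by linarith)
  have hsub : (Fintype.piFinset A).filter (fun a => Admissible a ∧ ¬ (ManyPrimes η c a ∧
      (4 ≤ k → ConsecutivePair a) ∧ ∀ m, 2 ≤ m → 8 * m ^ 2 ≤ k → Consecutive m a)) ⊆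
      ((Fintype.piFinset A).filter (fun a => Admissible a ∧ ¬ ManyPrimes η c a) ∪
        (Fintype.piFinset A).filter (fun a => Admissible a ∧ ¬ (4 ≤ k → ConsecutivePair a))) ∪
        (range (k + 1)).biUnion (fun m => (Fintype.piFinset A).filter (fun a => Admissible a ∧
          ¬ (2 ≤ m → 8 * m ^ 2 ≤ k → Consecutive m a))) := by
    intro a ha
    rw [mem_filter] at ha
    obtain ⟨ha1, ha2, ha3⟩ := ha
    rw [mem_union, mem_union, mem_biUnion]
    by_cases g1 : ManyPrimes η c a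
    · by_cases g2 : 4 ≤ k → ConsecutivePair a
      · right
        have g3 : ¬ ∀ m, 2 ≤ m → 8 * m ^ 2 ≤ k → Consecutive m a := fun h => ha3 ⟨g1, g2, h⟩
        push Not at g3
        obtain ⟨m, hm1, hm2, hm3⟩ := g3
        refine ⟨m, mem_range.2 ?_, mem_filter.2 ⟨ha1, ha2, fun h => hm3 (h hm1 hm2)⟩⟩
        nlinarith
      · exact Or.inl (Or.inr (mem_filter.2 ⟨ha1, ha2, g2⟩))
    · exact Or.inl (Or.inl (mem_filter.2 ⟨ha1, ha2, g1⟩))
  have hcard : (((Fintype.piFinset A).filter (fun a => Admissible a ∧ ¬ (ManyPrimes η c a ∧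
      (4 ≤ k → ConsecutivePair a) ∧ ∀ m, 2 ≤ m → 8 * m ^ 2 ≤ k → Consecutive m a))).card : ℝ) ≤
      (((Fintype.piFinset A).filter (fun a => Admissible a ∧ ¬ ManyPrimes η c a)).card : ℝ) +
        (((Fintype.piFinset A).filter (fun a => Admissible a ∧
          ¬ (4 ≤ k → ConsecutivePair a))).card : ℝ) +
        ∑ m ∈ range (k + 1), (((Fintype.piFinset A).filter (fun a => Admissible a ∧
          ¬ (2 ≤ m → 8 * m ^ 2 ≤ k → Consecutive m a))).card : ℝ) := by
    have h4 := (card_le_card hsub).trans ((card_union_le _ _).trans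
      (Nat.add_le_add (card_union_le _ _) card_biUnion_le))
    exact_mod_cast h4
  refine hcard.trans ?_
  rw [add_mul, add_mul, sum_mul]
  refine add_le_add (add_le_add ?_ ?_) (sum_le_sum fun m hm => ?_)
  · exact (h1 c n A hn hA).trans (hmono _ _ hd1)
  · exact (h2 n A hn hA).trans (hmono _ _ hd2)
  · exact (h3 m n A hn hA).trans (hmono _ _ (hd3 m hm))

end Pool.Agent.H21.Old.ChenTuples
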