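import Pool.Agent.H21.LA.La
import Pool.Agent.H21.LA.Cp
import Pool.Agent.H21.CP.Med
import Pool.Agent.H21.GH.Dens
import Pool.Agent.H21.GH.Half
import Pool.Agent.H11.HM.Res

/-!
Half of the multiples of a suitable number `q` are gaps between consecutive primes infinitely often, with lower
density in every long interval; for every even number a third of its multiples; with `r` colours a proportion
`13/(25 r)` of the multiples of a suitable number are differences of infinitely many pairs of primes of one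
colour, and every large multiple of a suitable number is a sum of two such differences.  In every large
admissible set almost all `m`-subsets of a subset containing 26 per cent of the elements, and a proportion
`(1-ε) (13/50)^(m-1)` of all `m`-subsets, satisfy the prime tuples conjecture, with exact patterns and with almost
all `l`-subsets as companions which are almost primes.
-/

namespace Pool.Agent.H21.Old.HalfOfGaps

open Finset

/-- There are infinitely many pairs of consecutive primes with difference `d`. -/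
def Gap (d : ℕ) : Prop :=
  {N : ℕ | N.Prime ∧ (N + d).Prime ∧ ∀ x : ℕ, N < x → x < N + d → ¬ x.Prime}.Infinite

/-- There are infinitely many pairs of primes with difference `d`. -/
def PrimeDifference (d : ℕ) : Prop := {N : ℕ | N.Prime ∧ (N + d).Prime}.Infinite

/-- There are infinitely many pairs of primes of the same colour with difference `h`. -/
def SameColour {r : ℕ} (c : ℕ → Fin r) (h : ℕ) : Prop :=
  {N : ℕ | N.Prime ∧ (N + h).Prime ∧ c N = c (N + h)}.Infinite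

/-- `H` is admissible: for every prime `p` some translate of `H` contains no multiple of `p`. -/
def Admissible (H : Finset ℕ) : Prop :=
  ∀ p : ℕ, p.Prime → ∃ a : ℕ, ∀ h ∈ H, ¬ p ∣ a + h

/-- at most two prime factors, counted with multiplicity, and all of them larger than `n^(1/8)` -/
def AlmostPrime (n : ℕ) : Prop :=
  2 ≤ n ∧ n.primeFactorsList.length ≤ 2 ∧ ∀ p : ℕ, p.Prime → p ∣ n → n < p ^ 8

/-- For every `F ⊆ B` there are infinitely many `N` such that, for all `b ∈ B`, `N + b` is a prime of colour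
`i` if and only if `b ∈ F`, and such that all the `N + b`, `b ∈ B'`, are almost primes. -/
def Realised {r : ℕ} (c : ℕ → Fin r) (i : Fin r) (B B' : Finset ℕ) : Prop :=
  ∀ F : Finset ℕ, F ⊆ B → {N : ℕ | (∀ b ∈ B, ((N + b).Prime ∧ c (N + b) = i) ↔ b ∈ F) ∧
    ∀ b ∈ B', AlmostPrime (N + b)}.Infinite

open Classical in
/-- `(B, B')` is realised for at least `(1-ε) C(|H|, l)` of the `l`-subsets `B'` of `H`. -/
def Shattered {r : ℕ} (c : ℕ → Fin r) (i : Fin r) (H : Finset ℕ) (l : ℕ) (ε : ℝ) (B : Finset ℕ) :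
    Prop :=
  (1 - ε) * (H.card.choose l : ℝ) ≤
    (((powersetCard l H).filter (fun B' => Realised c i B B')).card : ℝ)

open Classical in
private theorem part1 (ε : ℝ) (hε : 0 < ε) :
    ∃ q : ℕ, 0 < q ∧ ∀ Q : ℕ, 0 < Q → q ∣ Q → ∃ X₀ : ℕ, ∀ X : ℕ, X₀ ≤ X → ∀ M : ℕ,
      (1 / 2 - ε) * (X : ℝ) ≤ (((Ioc M (M + X)).filter (fun n => Gap (Q * n))).card : ℝ) := by
  obtain ⟨q, hq, h⟩ := Pool.Agent.H21.GH.half_dens _ Pool.Agent.H21.GH.k4_gap ε hε
  refine ⟨q, hq, fun Q hQ hqQ => ?_⟩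
  obtain ⟨X₀, hX⟩ := h Q hQ hqQ
  exact ⟨X₀, fun X hX' M => hX X hX' M⟩

open Classical in
private theorem part2 (Q : ℕ) (ε : ℝ) (hQ : 0 < Q) (h2 : 2 ∣ Q) (hε : 0 < ε) :
    ∃ X₀ : ℕ, ∀ X : ℕ, X₀ ≤ X → ∀ M : ℕ, (1 / 3 - ε) * (X : ℝ) ≤
      (((Ioc M (M + X)).filter (fun n => Gap (Q * n))).card : ℝ) := by
  obtain ⟨X₀, hX⟩ := Pool.Agent.H21.GH.third_dens _ Pool.Agent.H21.GH.k4_gap Q hQ h2 ε hε
  exact ⟨X₀, fun X hX' M => hX X hX' M⟩

open Classical in
private theorem part3 (r : ℕ) (c : ℕ → Fin r) (ε : ℝ) (hε : 0 < ε) :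
    ∃ q : ℕ, 0 < q ∧ ∀ Q : ℕ, 0 < Q → q ∣ Q → ∃ X₀ : ℕ, ∀ X : ℕ, X₀ ≤ X → ∀ M : ℕ,
      (13 / (25 * (r : ℝ)) - ε) * (X : ℝ) ≤
        (((Ioc M (M + X)).filter (fun n => SameColour c (Q * n))).card : ℝ) :=
  Pool.Agent.H11.HM.same_multiples r c ε hε

private theorem part4 : ∃ q : ℕ, 0 < q ∧ ∃ x₀ : ℕ, ∀ x : ℕ, x₀ ≤ x →
    ∃ a b : ℕ, 0 < a ∧ 0 < b ∧ a + b = x ∧ PrimeDifference (q * a) ∧ PrimeDifference (q * b) := by
  classical
  obtain ⟨q, hq, h⟩ := Pool.Agent.H11.HM.kron_multiples (1 / 100) (by norm_num)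
  obtain ⟨X0, hX⟩ := h q hq dvd_rfl
  refine ⟨q, hq, X0 + 2, fun x hx => ?_⟩
  have h1 := (hX (X0 + 1) (by omega) 0).2.2 x (by omega)
  have h2 : (0 : ℝ) < (1 / 25 - 2 * (1 / 100)) * ((X0 + 1 : ℕ) : ℝ) := by
    have : (0 : ℝ) < ((X0 + 1 : ℕ) : ℝ) := by positivity
    nlinarith
  have h3 := h2.trans_le h1
  have h4 := Nat.cast_pos.1 h3
  obtain ⟨n, hn⟩ := Finset.card_pos.1 h4
  rw [mem_filter, mem_Ioc] at hn
  exact ⟨n, x - n, by omega, by omega, by omega, hn.2.1, hn.2.2⟩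

open Classical in
private theorem part5 (r m l : ℕ) (ε : ℝ) (hm : 2 ≤ m) (hε : 0 < ε) :
    ∃ K : ℕ, ∀ H : Finset ℕ, Admissible H → K ≤ H.card → ∀ c : ℕ → Fin r,
      (∃ (i : Fin r) (S : Finset ℕ), S ⊆ H ∧
        (13 / (50 * (r : ℝ)) - ε) * (H.card : ℝ) ≤ (S.card : ℝ) ∧
        (1 - ε) * (S.card.choose m : ℝ) ≤
          (((powersetCard m S).filter (fun B => Shattered c i H l ε B)).card : ℝ)) ∧
      (1 - ε) * (13 / (50 * (r : ℝ))) ^ (m - 1) * (H.card.choose m : ℝ) ≤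
        (((powersetCard m H).filter (fun B => ∃ i, Shattered c i H l ε B)).card : ℝ) := by
  rcases Nat.eq_zero_or_pos r with hr | hr
  · subst hr
    exact ⟨0, fun H _ _ c => (c 0).elim0⟩
  have hr0 : (0 : ℝ) < r := by exact_mod_cast hr
  obtain ⟨e, he⟩ : ∃ e : ℝ, e = min ε ((13 / 50) / (2 * (r : ℝ))) := ⟨_, rfl⟩
  have he0 : 0 < e := by rw [he]; exact lt_min hε (by positivity)
  have heε : e ≤ ε := by rw [he]; exact min_le_left _ _
  have her : e ≤ (13 / 50) / (2 * (r : ℝ)) := by rw [he]; exact min_le_right _ _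
  have he1 : e < 1 := by
    refine her.trans_lt ?_
    have hr1 : (1 : ℝ) ≤ r := by exact_mod_cast hr
    rw [div_lt_one (by positivity)]
    linarith
  have hκr : (13 / 50 : ℝ) / r = 13 / (50 * (r : ℝ)) := by
    rw [div_div]
  obtain ⟨K1, h1⟩ := Pool.Agent.H21.LA.la_many (13 / 50) (by norm_num) (by norm_num)
    Pool.Agent.H21.CP.Q2 Pool.Agent.H21.CP.Q2_prime Pool.Agent.H21.CP.med r m l hr (by omega) e he0 he1
  obtain ⟨K3, h3⟩ := Pool.Agent.H21.LA.la_clique (13 / 50) (by norm_num) (by norm_num)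
    Pool.Agent.H21.CP.Q2 Pool.Agent.H21.CP.Q2_prime Pool.Agent.H21.CP.med r m l hr hm e he0 her
  have hmono : ∀ (c : ℕ → Fin r) (i : Fin r) (H B : Finset ℕ),
      Pool.Agent.H21.LA.Shat2 Pool.Agent.H21.CP.Q2 c i H l e B → Shattered c i H l ε B :=
    fun c i H B hB => Pool.Agent.H21.LA.shat2_mono _ c i H l heε B hB
  refine ⟨max K1 K3, fun H hH hK c => ⟨?_, ?_⟩⟩
  · obtain ⟨i, S, hS, hS1, hS2⟩ := h3 H hH ((le_max_right _ _).trans hK) c
    rw [hκr] at hS1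
    refine ⟨i, S, hS, le_trans ?_ hS1, le_trans ?_ (hS2.trans ?_)⟩
    · exact mul_le_mul_of_nonneg_right (by linarith) (Nat.cast_nonneg _)
    · exact mul_le_mul_of_nonneg_right (by linarith) (Nat.cast_nonneg _)
    · have hsub : (powersetCard m S).filter (fun B => Pool.Agent.H21.LA.Shat2
          Pool.Agent.H21.CP.Q2 c i H l e B) ⊆
          (powersetCard m S).filter (fun B => Shattered c i H l ε B) := by
        intro B hB
        rw [mem_filter] at hB ⊢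
        exact ⟨hB.1, hmono c i H B hB.2⟩
      exact_mod_cast card_le_card hsub
  · have g1 := h1 H hH ((le_max_left _ _).trans hK) c
    rw [hκr] at g1
    refine le_trans ?_ (g1.trans ?_)
    · apply mul_le_mul_of_nonneg_right _ (Nat.cast_nonneg _)
      exact mul_le_mul_of_nonneg_right (by linarith) (by positivity)
    · have hsub : (powersetCard m H).filter (fun B => ∃ i, Pool.Agent.H21.LA.Shat2
          Pool.Agent.H21.CP.Q2 c i H l e B) ⊆
          (powersetCard m H).filter (fun B => ∃ i, Shattered c i H l ε B) := by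
        intro B hB
        rw [mem_filter] at hB ⊢
        obtain ⟨hB1, i, hi⟩ := hB
        exact ⟨hB1, i, hmono c i H B hi⟩
      exact_mod_cast card_le_card hsub

open Classical in
theorem result :
    (∀ ε : ℝ, 0 < ε → ∃ q : ℕ, 0 < q ∧ ∀ Q : ℕ, 0 < Q → q ∣ Q →
      ∃ X₀ : ℕ, ∀ X : ℕ, X₀ ≤ X → ∀ M : ℕ,
        (1 / 2 - ε) * (X : ℝ) ≤ (((Ioc M (M + X)).filter (fun n => Gap (Q * n))).card : ℝ)) ∧
    (∀ (Q : ℕ) (ε : ℝ), 0 < Q → 2 ∣ Q → 0 < ε → ∃ X₀ : ℕ, ∀ X : ℕ, X₀ ≤ X → ∀ M : ℕ,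
      (1 / 3 - ε) * (X : ℝ) ≤ (((Ioc M (M + X)).filter (fun n => Gap (Q * n))).card : ℝ)) ∧
    (∀ (r : ℕ) (c : ℕ → Fin r) (ε : ℝ), 0 < ε → ∃ q : ℕ, 0 < q ∧ ∀ Q : ℕ, 0 < Q → q ∣ Q →
      ∃ X₀ : ℕ, ∀ X : ℕ, X₀ ≤ X → ∀ M : ℕ, (13 / (25 * (r : ℝ)) - ε) * (X : ℝ) ≤
        (((Ioc M (M + X)).filter (fun n => SameColour c (Q * n))).card : ℝ)) ∧
    (∃ q : ℕ, 0 < q ∧ ∃ x₀ : ℕ, ∀ x : ℕ, x₀ ≤ x →
      ∃ a b : ℕ, 0 < a ∧ 0 < b ∧ a + b = x ∧
        PrimeDifference (q * a) ∧ PrimeDifference (q * b)) ∧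
    (∀ (r m l : ℕ) (ε : ℝ), 2 ≤ m → 0 < ε → ∃ K : ℕ, ∀ H : Finset ℕ, Admissible H → K ≤ H.card →
      ∀ c : ℕ → Fin r,
      (∃ (i : Fin r) (S : Finset ℕ), S ⊆ H ∧
        (13 / (50 * (r : ℝ)) - ε) * (H.card : ℝ) ≤ (S.card : ℝ) ∧
        (1 - ε) * (S.card.choose m : ℝ) ≤
          (((powersetCard m S).filter (fun B => Shattered c i H l ε B)).card : ℝ)) ∧
      (1 - ε) * (13 / (50 * (r : ℝ))) ^ (m - 1) * (H.card.choose m : ℝ) ≤
        (((powersetCard m H).filter (fun B => ∃ i, Shattered c i H l ε B)).card : ℝ)) :=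
  ⟨part1, part2, part3, part4, part5⟩

end Pool.Agent.H21.Old.HalfOfGaps
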