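import Pool.Agent.H21.MT.FuseB

/-!
Every infinite set of shifts contains an infinite subset `B` such that every subset of `B` is a limit
of translates of the set of primes (or of the primes of one colour).
-/

namespace Pool.Agent.Results.MP_8923e7_nt.InfiniteShattered

theorem result (A : Set ℕ) (hA : A.Infinite) (r : ℕ) (c : ℕ → Fin r) :
    ∃ (i : Fin r) (B : Set ℕ), B ⊆ A ∧ B.Infinite ∧ ∀ F : Set ℕ, F ⊆ B → ∀ M : ℕ,
      {N : ℕ | ∀ a ≤ M, ((N + a).Prime ∧ c (N + a) = i) ↔ a ∈ F}.Infinite :=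
  Pool.Agent.H21.MT.shatter_strong A hA r c

end Pool.Agent.Results.MP_8923e7_nt.InfiniteShattered
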