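import Pool.Agent.H21.MT.T1y

/-!
Every infinite set `A` of shifts contains an infinite limit pattern `B` of the primes: the primes in
`[N, N + M]` are exactly the `N + a`, `a ∈ B`, for infinitely many `N`, with limit colours, and with
counting function at least `log |A ∩ [0, y]| / ψ y` infinitely often for one of the colours.
-/

namespace Pool.Agent.Results.MP_8923e7_nt.InfiniteSubsets

open Filter

theorem result (A : Set ℕ) (hA : A.Infinite) (r : ℕ) (c : ℕ → Fin r) (ψ : ℕ → ℝ)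
    (hψ : Tendsto ψ atTop atTop) :
    ∃ (B : Set ℕ) (κ : ℕ → Fin r) (i : Fin r), B ⊆ A ∧
      (∀ M : ℕ,
        {N : ℕ | ∀ a ≤ M, ((N + a).Prime ↔ a ∈ B) ∧ (a ∈ B → c (N + a) = κ a)}.Infinite) ∧
      {a ∈ B | κ a = i}.Infinite ∧
      ∃ᶠ y : ℕ in atTop, Real.log ({a ∈ A | a ≤ y}.ncard : ℝ) / ψ y ≤
        ({a ∈ B | κ a = i ∧ a ≤ y}.ncard : ℝ) :=
  Pool.Agent.H21.MT.t1y A hA r c ψ hψ

end Pool.Agent.Results.MP_8923e7_nt.InfiniteSubsets
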