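import Pool.Agent.H21.QT.Ms
import Pool.Agent.H21.QT.Sa
import Pool.Agent.H21.QT.Fn

/-!
In every large admissible set a proportion `(1-ε)/4^(m-1)` of the `m`-subsets, almost all `m`-subsets of a
subset containing a quarter of the elements, and (for consecutive primes) a quarter of the pairs satisfy the
prime tuples conjecture; explicit densities of the gaps between consecutive primes.
-/

namespace Pool.Agent.H21.Old.LargeAdmissibleQuarter

open Finset

/-- `H` is admissible: for every prime `p` some translate of `H` contains no multiple of `p`. -/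
def Admissible (H : Finset ℕ) : Prop :=
  ∀ p : ℕ, p.Prime → ∃ a : ℕ, ∀ h ∈ H, ¬ p ∣ a + h

/-- For every `F ⊆ B` there are infinitely many `N` such that, for all `a ∈ B`, `N + a` is a prime of
colour `i` if and only if `a ∈ F`. -/
def Shattered {r : ℕ} (c : ℕ → Fin r) (i : Fin r) (B : Finset ℕ) : Prop :=
  ∀ F : Finset ℕ, F ⊆ B → {N : ℕ | ∀ a ∈ B, ((N + a).Prime ∧ c (N + a) = i) ↔ a ∈ F}.Infinite

/-- For infinitely many `N` the elements of `N + B` are consecutive primes: the primes between its least and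
its greatest element are exactly its elements. -/
def Consecutive (B : Finset ℕ) : Prop :=
  {N : ℕ | ∀ x : ℕ, (∃ a ∈ B, ∃ b ∈ B, a ≤ x ∧ x ≤ b) → ((N + x).Prime ↔ x ∈ B)}.Infinite

/-- There are infinitely many pairs of consecutive primes with difference `d`. -/
def Gap (d : ℕ) : Prop :=
  {N : ℕ | N.Prime ∧ (N + d).Prime ∧ ∀ x : ℕ, N < x → x < N + d → ¬ x.Prime}.Infinite

open Classical in
theorem result :
    (∀ (r m : ℕ) (ε : ℝ), 2 ≤ m → 0 < ε → ∃ K : ℕ, ∀ H : Finset ℕ, Admissible H → K ≤ H.card →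
      ∀ c : ℕ → Fin r,
      ((1 - ε) / (4 * (r : ℝ)) ^ (m - 1) * (H.card.choose m : ℝ) ≤
        (((powersetCard m H).filter (fun B => ∃ i, Shattered c i B)).card : ℝ)) ∧
      ∃ (i : Fin r) (S : Finset ℕ), S ⊆ H ∧
        (1 / (4 * (r : ℝ)) - ε) * (H.card : ℝ) ≤ (S.card : ℝ) ∧
        (1 - ε) * (S.card.choose m : ℝ) ≤
          (((powersetCard m S).filter (fun B => Shattered c i B)).card : ℝ)) ∧
    (∀ (m : ℕ) (ε : ℝ), 2 ≤ m → 0 < ε → ∃ K : ℕ, ∀ H : Finset ℕ, Admissible H → K ≤ H.card →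
      ((1 / 4 - ε) * (H.card.choose 2 : ℝ) ≤
        (((powersetCard 2 H).filter (fun B => Consecutive B)).card : ℝ)) ∧
      (1 - ε) * ((m.factorial : ℝ) / ((m : ℝ) ^ m * (4 * ((m : ℝ) - 1)) ^ (m - 1))) *
        (H.card.choose m : ℝ) ≤
        (((powersetCard m H).filter (fun B => Consecutive B)).card : ℝ)) ∧
    (∃ X₀ : ℕ, ∀ X : ℕ, X₀ ≤ X → ∀ M : ℕ,
      (X : ℝ) / 15 ≤ (((Ioc M (M + X)).filter (fun d => Gap d)).card : ℝ)) ∧
    (∀ ε : ℝ, 0 < ε → ∃ q : ℕ, 0 < q ∧ ∀ Q : ℕ, 0 < Q → q ∣ Q → ∃ X₀ : ℕ, ∀ X : ℕ, X₀ ≤ X →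
      ∀ M : ℕ, (1 / 4 - ε) * (X : ℝ) ≤
        (((Ioc M (M + X)).filter (fun n => Gap (Q * n))).card : ℝ)) := by
  refine ⟨?_, ?_, ?_, ?_⟩
  · intro r m ε hm hε
    obtain ⟨K1, h1⟩ := Pool.Agent.H21.QT.many_shattered r m (by omega) ε hε
    obtain ⟨K2, h2⟩ := Pool.Agent.H21.QT.near_clique r m hm ε hε
    exact ⟨max K1 K2, fun H hH hK c => ⟨h1 H hH ((le_max_left _ _).trans hK) c,
      h2 H hH ((le_max_right _ _).trans hK) c⟩⟩
  · intro m ε hm hε
    obtain ⟨K1, h1⟩ := Pool.Agent.H21.QT.quarter_pairs ε hε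
    obtain ⟨K2, h2⟩ := Pool.Agent.H21.SH.many_consecutive m hm ε hε
    refine ⟨max K1 K2, fun H hH hK => ⟨?_, ?_⟩⟩
    · refine (h1 H hH ((le_max_left _ _).trans hK)).trans ?_
      have hsub : (powersetCard 2 H).filter (fun B => ∃ x ∈ B, ∃ y ∈ B,
          Pool.Agent.H21.QT.GapP ((x : ℕ) : ℤ) ((y : ℕ) : ℤ)) ⊆
          (powersetCard 2 H).filter (fun B => Consecutive B) := by
        intro B hB
        rw [mem_filter, mem_powersetCard] at hB ⊢
        refine ⟨hB.1, ?_⟩
        obtain ⟨⟨_, hB2⟩, x, hx, y, hy, hlt, hinf⟩ := hB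
        have hxy : x < y := by exact_mod_cast hlt
        have hBxy : B = {x, y} := by
          symm
          apply eq_of_subset_of_card_le
          · intro z hz
            simp only [mem_insert, mem_singleton] at hz
            rcases hz with rfl | rfl
            · exact hx
            · exact hy
          · rw [hB2, card_pair hxy.ne]
        subst hBxy
        refine hinf.mono ?_
        rintro N ⟨hNx, hNy, hN⟩ z ⟨a, ha, b, hb, haz, hzb⟩
        have e1 : ((N : ℤ) + (x : ℤ)).toNat = N + x := by omega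
        have e2 : ((N : ℤ) + (y : ℤ)).toNat = N + y := by omega
        rw [e1] at hNx
        rw [e2] at hNy
        simp only [mem_insert, mem_singleton] at ha hb ⊢
        have hxz : x ≤ z := by omega
        have hzy : z ≤ y := by omega
        constructor
        · intro hz
          by_contra hne
          push Not at hne
          have hz1 : x < z := lt_of_le_of_ne hxz (Ne.symm hne.1)
          have hz2 : z < y := lt_of_le_of_ne hzy hne.2
          refine hN (z : ℤ) (by exact_mod_cast hz1) (by exact_mod_cast hz2) ?_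
          have e3 : ((N : ℤ) + (z : ℤ)).toNat = N + z := by omega
          rw [e3]
          exact hz
        · rintro (rfl | rfl)
          · exact hNx
          · exact hNy
      exact_mod_cast card_le_card hsub
    · have h3 := h2 H hH ((le_max_right _ _).trans hK)
      refine le_trans (le_of_eq ?_) h3
      ring
  · obtain ⟨K0, hK⟩ := Pool.Agent.H21.QT.pair_gap4 (249 / 1000) (by norm_num)
    obtain ⟨X₀, hX⟩ := Pool.Agent.H21.SH.dens_15 Pool.Agent.H21.SH.GapE (max K0 2)
      (le_max_right _ _) (hK _ (le_max_left _ _))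
    exact ⟨X₀, fun X hX' M => hX X hX' M⟩
  · intro ε hε
    obtain ⟨K0, hK⟩ := Pool.Agent.H21.QT.pair_gap4 (1 / 4 - ε / 2) (by linarith)
    obtain ⟨q, hq, h⟩ := Pool.Agent.H21.SH.dens_mult Pool.Agent.H21.SH.GapE (1 / 4 - ε / 2)
      (by linarith) (max K0 2) (le_max_right _ _) (hK _ (le_max_left _ _)) (ε / 2) (by linarith)
    refine ⟨q, hq, fun Q hQ hqQ => ?_⟩
    obtain ⟨X₀, hX⟩ := h Q hQ hqQ
    refine ⟨X₀, fun X hX' M => ?_⟩
    have h1 := hX X hX' M
    have e : (1 / 4 : ℝ) - ε / 2 - ε / 2 = 1 / 4 - ε := by ring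
    rw [e] at h1
    exact h1

end Pool.Agent.H21.Old.LargeAdmissibleQuarter
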