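import Pool.Agent.H21.LA.La
import Pool.Agent.H21.LA.Cp
import Pool.Agent.H21.LA.De
import Pool.Agent.H21.CP.Med

/-!
In every large admissible set a proportion `(1-ε) (13/50)^(m-1)` of the `m`-subsets, a third of the pairs, and
almost all `m`-subsets of a subset containing 26 per cent of the elements satisfy the prime tuples conjecture,
with exact patterns and with almost all `l`-subsets as companions which are almost primes; a third of the pairs
are consecutive primes infinitely often; explicit densities of the gaps between consecutive primes.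
-/

namespace Pool.Agent.H21.Old.LargeAdmissibleTenth

open Finset

/-- `H` is admissible: for every prime `p` some translate of `H` contains no multiple of `p`. -/
def Admissible (H : Finset ℕ) : Prop :=
  ∀ p : ℕ, p.Prime → ∃ a : ℕ, ∀ h ∈ H, ¬ p ∣ a + h

/-- at most two prime factors, counted with multiplicity, and all of them larger than `n^(1/8)` -/
def AlmostPrime (n : ℕ) : Prop :=
  2 ≤ n ∧ n.primeFactorsList.length ≤ 2 ∧ ∀ p : ℕ, p.Prime → p ∣ n → n < p ^ 8

/-- For every `F ⊆ B` there are infinitely many `N` such that, for all `b ∈ B`, `N + b` is a prime of colour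
`i` if and only if `b ∈ F`, and such that all the `N + b`, `b ∈ B'`, are almost primes. -/
def Realised {r : ℕ} (c : ℕ → Fin r) (i : Fin r) (B B' : Finset ℕ) : Prop :=
  ∀ F : Finset ℕ, F ⊆ B → {N : ℕ | (∀ b ∈ B, ((N + b).Prime ∧ c (N + b) = i) ↔ b ∈ F) ∧
    ∀ b ∈ B', AlmostPrime (N + b)}.Infinite

open Classical in
/-- `(B, B')` is realised for at least `(1-ε) C(|H|, l)` of the `l`-subsets `B'` of `H`. -/
def Shattered {r : ℕ} (c : ℕ → Fin r) (i : Fin r) (H : Finset ℕ) (l : ℕ) (ε : ℝ) (B : Finset ℕ) :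
    Prop :=
  (1 - ε) * (H.card.choose l : ℝ) ≤
    (((powersetCard l H).filter (fun B' => Realised c i B B')).card : ℝ)

/-- For infinitely many `N` the elements of `N + B` are consecutive primes: the primes between its least and
its greatest element are exactly its elements. -/
def Consecutive (B : Finset ℕ) : Prop :=
  {N : ℕ | ∀ x : ℕ, (∃ a ∈ B, ∃ b ∈ B, a ≤ x ∧ x ≤ b) → ((N + x).Prime ↔ x ∈ B)}.Infinite

/-- There are infinitely many pairs of consecutive primes with difference `d`. -/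
def Gap (d : ℕ) : Prop :=
  {N : ℕ | N.Prime ∧ (N + d).Prime ∧ ∀ x : ℕ, N < x → x < N + d → ¬ x.Prime}.Infinite

open Classical in
private theorem part1 (r m l : ℕ) (ε : ℝ) (hm : 2 ≤ m) (hε : 0 < ε) :
    ∃ K : ℕ, ∀ H : Finset ℕ, Admissible H → K ≤ H.card → ∀ c : ℕ → Fin r,
      ((1 - ε) * (13 / (50 * (r : ℝ))) ^ (m - 1) * (H.card.choose m : ℝ) ≤
        (((powersetCard m H).filter (fun B => ∃ i, Shattered c i H l ε B)).card : ℝ)) ∧
      ((1 - ε) / ((50 * r / 13 : ℕ) : ℝ) * (H.card.choose 2 : ℝ) ≤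
        (((powersetCard 2 H).filter (fun B => ∃ i, Shattered c i H l ε B)).card : ℝ)) ∧
      ∃ (i : Fin r) (S : Finset ℕ), S ⊆ H ∧
        (13 / (50 * (r : ℝ)) - ε) * (H.card : ℝ) ≤ (S.card : ℝ) ∧
        (1 - ε) * (S.card.choose m : ℝ) ≤
          (((powersetCard m S).filter (fun B => Shattered c i H l ε B)).card : ℝ) := by
  rcases Nat.eq_zero_or_pos r with hr | hr
  · subst hr
    exact ⟨0, fun H _ _ c => (c 0).elim0⟩
  have hr0 : (0 : ℝ) < r := by exact_mod_cast hr
  have hr1 : (1 : ℝ) ≤ r := by exact_mod_cast hr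
  obtain ⟨e, he⟩ : ∃ e : ℝ, e = min ε ((13 / 50) / (2 * (r : ℝ))) := ⟨_, rfl⟩
  have he0 : 0 < e := by rw [he]; exact lt_min hε (by positivity)
  have heε : e ≤ ε := by rw [he]; exact min_le_left _ _
  have her : e ≤ (13 / 50) / (2 * (r : ℝ)) := by rw [he]; exact min_le_right _ _
  have he1 : e < 1 := by
    refine her.trans_lt ?_
    rw [div_lt_one (by positivity)]
    linarith
  have hκr : (13 / 50 : ℝ) / r = 13 / (50 * (r : ℝ)) := by
    rw [div_div]
  obtain ⟨K1, h1⟩ := Pool.Agent.H21.LA.la_many (13 / 50) (by norm_num) (by norm_num)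
    Pool.Agent.H21.CP.Q2 Pool.Agent.H21.CP.Q2_prime Pool.Agent.H21.CP.med r m l hr (by omega) e he0 he1
  obtain ⟨K2, h2⟩ := Pool.Agent.H21.LA.la_pairs (13 / 50) (by norm_num)
    Pool.Agent.H21.CP.Q2 Pool.Agent.H21.CP.Q2_prime Pool.Agent.H21.CP.med r (50 * r / 13) l hr
    (by omega) (by
      have h3 : r * 50 < 13 * (50 * r / 13 + 1) := by omega
      have h4 : (r : ℝ) * 50 < 13 * (((50 * r / 13 : ℕ) : ℝ) + 1) := by exact_mod_cast h3
      linarith) e he0 he1
  obtain ⟨K3, h3⟩ := Pool.Agent.H21.LA.la_clique (13 / 50) (by norm_num) (by norm_num)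
    Pool.Agent.H21.CP.Q2 Pool.Agent.H21.CP.Q2_prime Pool.Agent.H21.CP.med r m l hr hm e he0 her
  have hmono : ∀ (c : ℕ → Fin r) (i : Fin r) (H B : Finset ℕ),
      Pool.Agent.H21.LA.Shat2 Pool.Agent.H21.CP.Q2 c i H l e B → Shattered c i H l ε B :=
    fun c i H B hB => Pool.Agent.H21.LA.shat2_mono _ c i H l heε B hB
  refine ⟨max K1 (max K2 K3), fun H hH hK c => ⟨?_, ?_, ?_⟩⟩
  · have g1 := h1 H hH ((le_max_left _ _).trans hK) c
    rw [hκr] at g1
    refine le_trans ?_ (g1.trans ?_)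
    · apply mul_le_mul_of_nonneg_right _ (Nat.cast_nonneg _)
      exact mul_le_mul_of_nonneg_right (by linarith) (by positivity)
    · have hsub : (powersetCard m H).filter (fun B => ∃ i, Pool.Agent.H21.LA.Shat2
          Pool.Agent.H21.CP.Q2 c i H l e B) ⊆
          (powersetCard m H).filter (fun B => ∃ i, Shattered c i H l ε B) := by
        intro B hB
        rw [mem_filter] at hB ⊢
        obtain ⟨hB1, i, hi⟩ := hB
        exact ⟨hB1, i, hmono c i H B hi⟩
      exact_mod_cast card_le_card hsub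
  · have g2 := h2 H hH (((le_max_left _ _).trans (le_max_right _ _)).trans hK) c
    refine le_trans ?_ (g2.trans ?_)
    · apply mul_le_mul_of_nonneg_right _ (Nat.cast_nonneg _)
      exact div_le_div_of_nonneg_right (by linarith) (Nat.cast_nonneg _)
    · have hsub : (powersetCard 2 H).filter (fun B => ∃ i, Pool.Agent.H21.LA.Shat2
          Pool.Agent.H21.CP.Q2 c i H l e B) ⊆
          (powersetCard 2 H).filter (fun B => ∃ i, Shattered c i H l ε B) := by
        intro B hB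
        rw [mem_filter] at hB ⊢
        obtain ⟨hB1, i, hi⟩ := hB
        exact ⟨hB1, i, hmono c i H B hi⟩
      exact_mod_cast card_le_card hsub
  · obtain ⟨i, S, hS, hS1, hS2⟩ := h3 H hH (((le_max_right _ _).trans (le_max_right _ _)).trans hK) c
    rw [hκr] at hS1
    refine ⟨i, S, hS, le_trans ?_ hS1, le_trans ?_ (hS2.trans ?_)⟩
    · exact mul_le_mul_of_nonneg_right (by linarith) (Nat.cast_nonneg _)
    · exact mul_le_mul_of_nonneg_right (by linarith) (Nat.cast_nonneg _)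
    · have hsub : (powersetCard m S).filter (fun B => Pool.Agent.H21.LA.Shat2
          Pool.Agent.H21.CP.Q2 c i H l e B) ⊆
          (powersetCard m S).filter (fun B => Shattered c i H l ε B) := by
        intro B hB
        rw [mem_filter] at hB ⊢
        exact ⟨hB.1, hmono c i H B hB.2⟩
      exact_mod_cast card_le_card hsub

private theorem part2_aux {B : Finset ℕ} (hB2 : B.card = 2)
    (h : ∃ x ∈ B, ∃ y ∈ B, Pool.Agent.H21.QT.GapP ((x : ℕ) : ℤ) ((y : ℕ) : ℤ)) : Consecutive B := by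
  classical
  obtain ⟨x, hx, y, hy, hlt, hinf⟩ := h
  have hxy : x < y := by exact_mod_cast hlt
  have hBxy : B = {x, y} := by
    symm
    apply eq_of_subset_of_card_le
    · intro z hz
      simp only [mem_insert, mem_singleton] at hz
      rcases hz with rfl | rfl
      · exact hx
      · exact hy
    · rw [hB2, card_pair hxy.ne]
  subst hBxy
  refine hinf.mono ?_
  rintro N ⟨hNx, hNy, hN⟩ z ⟨a, ha, b, hb, haz, hzb⟩
  have e1 : ((N : ℤ) + (x : ℤ)).toNat = N + x := by omega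
  have e2 : ((N : ℤ) + (y : ℤ)).toNat = N + y := by omega
  rw [e1] at hNx
  rw [e2] at hNy
  simp only [mem_insert, mem_singleton] at ha hb ⊢
  have hxz : x ≤ z := by omega
  have hzy : z ≤ y := by omega
  constructor
  · intro hz
    by_contra hne
    push Not at hne
    have hz1 : x < z := lt_of_le_of_ne hxz (Ne.symm hne.1)
    have hz2 : z < y := lt_of_le_of_ne hzy hne.2
    refine hN (z : ℤ) (by exact_mod_cast hz1) (by exact_mod_cast hz2) ?_
    have e3 : ((N : ℤ) + (z : ℤ)).toNat = N + z := by omega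
    rw [e3]
    exact hz
  · rintro (rfl | rfl)
    · exact hNx
    · exact hNy

open Classical in
private theorem part2 (m : ℕ) (ε : ℝ) (hm : 2 ≤ m) (hε : 0 < ε) :
    ∃ K : ℕ, ∀ H : Finset ℕ, Admissible H → K ≤ H.card →
      ((1 / 3 - ε) * (H.card.choose 2 : ℝ) ≤
        (((powersetCard 2 H).filter (fun B => Consecutive B)).card : ℝ)) ∧
      (1 - ε) * ((m.factorial : ℝ) / ((m : ℝ) ^ m * (4 * ((m : ℝ) - 1)) ^ (m - 1))) *
        (H.card.choose m : ℝ) ≤
        (((powersetCard m H).filter (fun B => Consecutive B)).card : ℝ) := by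
  obtain ⟨e, he⟩ : ∃ e : ℝ, e = min ε (1 / 2) := ⟨_, rfl⟩
  have he0 : 0 < e := by rw [he]; exact lt_min hε (by norm_num)
  have heε : e ≤ ε := by rw [he]; exact min_le_left _ _
  have he1 : e < 1 := by
    have : e ≤ 1 / 2 := by rw [he]; exact min_le_right _ _
    linarith
  obtain ⟨K1, h1⟩ := Pool.Agent.H21.LA.third_pairs (13 / 50) Pool.Agent.H21.CP.Q2
    Pool.Agent.H21.CP.Q2_prime 3 (by norm_num) (by norm_num)
    (Pool.Agent.H21.CP.med 4 (by norm_num)) e he0 he1
  obtain ⟨K2, h2⟩ := Pool.Agent.H21.SH.many_consecutive m hm ε hε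
  refine ⟨max K1 K2, fun H hH hK => ⟨?_, ?_⟩⟩
  · have g1 := h1 H hH ((le_max_left _ _).trans hK)
    refine le_trans ?_ (g1.trans ?_)
    · apply mul_le_mul_of_nonneg_right _ (Nat.cast_nonneg _)
      have h3 : (1 - e) / ((3 : ℕ) : ℝ) = 1 / 3 - e / 3 := by
        push_cast
        ring
      rw [h3]
      linarith
    · have hsub : (powersetCard 2 H).filter (fun B => ∃ x ∈ B, ∃ y ∈ B,
          Pool.Agent.H21.QT.GapP ((x : ℕ) : ℤ) ((y : ℕ) : ℤ)) ⊆
          (powersetCard 2 H).filter (fun B => Consecutive B) := by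
        intro B hB
        rw [mem_filter, mem_powersetCard] at hB ⊢
        exact ⟨hB.1, part2_aux hB.1.2 hB.2⟩
      exact_mod_cast card_le_card hsub
  · have h3 := h2 H hH ((le_max_right _ _).trans hK)
    refine le_trans (le_of_eq ?_) h3
    ring

open Classical in
private theorem part3 : ∃ X₀ : ℕ, ∀ X : ℕ, X₀ ≤ X → ∀ M : ℕ,
    (X : ℝ) / 10 ≤ (((Ioc M (M + X)).filter (fun d => Gap d)).card : ℝ) := by
  obtain ⟨K0, hK⟩ := Pool.Agent.H21.LA.pair_gap_t (13 / 50) Pool.Agent.H21.CP.Q2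
    Pool.Agent.H21.CP.Q2_prime 3 (by norm_num) (by norm_num)
    (Pool.Agent.H21.CP.med 4 (by norm_num)) (333 / 1000) (by norm_num) (by norm_num)
  obtain ⟨X₀, hX⟩ := Pool.Agent.H21.LA.dens_10 Pool.Agent.H21.SH.GapE (max K0 2)
    (le_max_right _ _) (hK _ (le_max_left _ _))
  exact ⟨X₀, fun X hX' M => hX X hX' M⟩

open Classical in
private theorem part4 (ε : ℝ) (hε : 0 < ε) : ∃ q : ℕ, 0 < q ∧ ∀ Q : ℕ, 0 < Q → q ∣ Q →
    ∃ X₀ : ℕ, ∀ X : ℕ, X₀ ≤ X → ∀ M : ℕ, (1 / 3 - ε) * (X : ℝ) ≤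
      (((Ioc M (M + X)).filter (fun n => Gap (Q * n))).card : ℝ) := by
  obtain ⟨e, he⟩ : ∃ e : ℝ, e = min ε (1 / 3) := ⟨_, rfl⟩
  have he0 : 0 < e := by rw [he]; exact lt_min hε (by norm_num)
  have heε : e ≤ ε := by rw [he]; exact min_le_left _ _
  have he1 : e ≤ 1 / 3 := by rw [he]; exact min_le_right _ _
  obtain ⟨K0, hK⟩ := Pool.Agent.H21.LA.pair_gap_t (13 / 50) Pool.Agent.H21.CP.Q2
    Pool.Agent.H21.CP.Q2_prime 3 (by norm_num) (by norm_num)
    (Pool.Agent.H21.CP.med 4 (by norm_num)) (1 / 3 - e / 2) (by linarith)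
    (by push_cast; linarith)
  obtain ⟨q, hq, h⟩ := Pool.Agent.H21.SH.dens_mult Pool.Agent.H21.SH.GapE (1 / 3 - e / 2)
    (by linarith) (max K0 2) (le_max_right _ _) (hK _ (le_max_left _ _)) (e / 2) (by linarith)
  refine ⟨q, hq, fun Q hQ hqQ => ?_⟩
  obtain ⟨X₀, hX⟩ := h Q hQ hqQ
  refine ⟨X₀, fun X hX' M => ?_⟩
  have h1 := hX X hX' M
  refine le_trans ?_ h1
  exact mul_le_mul_of_nonneg_right (by linarith) (Nat.cast_nonneg _)

open Classical in
theorem result :
    (∀ (r m l : ℕ) (ε : ℝ), 2 ≤ m → 0 < ε → ∃ K : ℕ, ∀ H : Finset ℕ, Admissible H → K ≤ H.card →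
      ∀ c : ℕ → Fin r,
      ((1 - ε) * (13 / (50 * (r : ℝ))) ^ (m - 1) * (H.card.choose m : ℝ) ≤
        (((powersetCard m H).filter (fun B => ∃ i, Shattered c i H l ε B)).card : ℝ)) ∧
      ((1 - ε) / ((50 * r / 13 : ℕ) : ℝ) * (H.card.choose 2 : ℝ) ≤
        (((powersetCard 2 H).filter (fun B => ∃ i, Shattered c i H l ε B)).card : ℝ)) ∧
      ∃ (i : Fin r) (S : Finset ℕ), S ⊆ H ∧
        (13 / (50 * (r : ℝ)) - ε) * (H.card : ℝ) ≤ (S.card : ℝ) ∧
        (1 - ε) * (S.card.choose m : ℝ) ≤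
          (((powersetCard m S).filter (fun B => Shattered c i H l ε B)).card : ℝ)) ∧
    (∀ (m : ℕ) (ε : ℝ), 2 ≤ m → 0 < ε → ∃ K : ℕ, ∀ H : Finset ℕ, Admissible H → K ≤ H.card →
      ((1 / 3 - ε) * (H.card.choose 2 : ℝ) ≤
        (((powersetCard 2 H).filter (fun B => Consecutive B)).card : ℝ)) ∧
      (1 - ε) * ((m.factorial : ℝ) / ((m : ℝ) ^ m * (4 * ((m : ℝ) - 1)) ^ (m - 1))) *
        (H.card.choose m : ℝ) ≤
        (((powersetCard m H).filter (fun B => Consecutive B)).card : ℝ)) ∧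
    (∃ X₀ : ℕ, ∀ X : ℕ, X₀ ≤ X → ∀ M : ℕ,
      (X : ℝ) / 10 ≤ (((Ioc M (M + X)).filter (fun d => Gap d)).card : ℝ)) ∧
    (∀ ε : ℝ, 0 < ε → ∃ q : ℕ, 0 < q ∧ ∀ Q : ℕ, 0 < Q → q ∣ Q → ∃ X₀ : ℕ, ∀ X : ℕ, X₀ ≤ X →
      ∀ M : ℕ, (1 / 3 - ε) * (X : ℝ) ≤
        (((Ioc M (M + X)).filter (fun n => Gap (Q * n))).card : ℝ)) :=
  ⟨part1, part2, part3, part4⟩

end Pool.Agent.H21.Old.LargeAdmissibleTenth
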