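import Pool.Agent.H21.QT.Qn
import Pool.Agent.H21.QT.Cm
import Pool.Agent.H21.QT.Gc

/-!
For almost all admissible `k`-tuples a quarter of the `k` numbers `N + a_j` are primes simultaneously
for infinitely many `N`; for almost all admissible `k`-tuples, `k ≥ 8 m^2` (or `m = 2`, `k = 5`), some `m` of
the `N + a_j` are consecutive primes for infinitely many `N`.
-/

namespace Pool.Agent.H21.Old.QuarterOfTuples

open Finset

/-- for every prime `p` there is `b` such that `p` divides none of the `b + a_j` -/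
def Admissible {k : ℕ} (a : Fin k → ℤ) : Prop :=
  ∀ p : ℕ, p.Prime → ∃ b : ℤ, ∀ j, ¬ (p : ℤ) ∣ b + a j

/-- for every `E' ⊆ E` there are infinitely many `N` for which the `j` such that `N + a_j` is a prime of
colour `i` are exactly the elements of `E'` -/
def Realised {r k : ℕ} (c : ℕ → Fin r) (a : Fin k → ℤ) (i : Fin r) (E : Finset (Fin k)) : Prop :=
  ∀ E' : Finset (Fin k), E' ⊆ E →
    {N : ℕ | ∀ j, (((N : ℤ) + a j).toNat.Prime ∧ c ((N : ℤ) + a j).toNat = i) ↔ j ∈ E'}.Infinite

/-- some realised `(i, E)` has `|E| ≥ k/(4r)`, and the realised pairs cover every index with weight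
`(1/4 - η)/r`, for suitable weights with sum at most `1` -/
def Quarter {r k : ℕ} (η : ℝ) (c : ℕ → Fin r) (a : Fin k → ℤ) : Prop :=
  (∃ (i : Fin r) (E : Finset (Fin k)), (k : ℝ) / (4 * r) ≤ E.card ∧ Realised c a i E) ∧
  ∃ w : Fin r → Finset (Fin k) → ℝ, (∀ i E, 0 ≤ w i E) ∧ ∑ i, ∑ E, w i E ≤ 1 ∧
    (∀ j, (1 / 4 - η) / r ≤ ∑ i, ∑ E ∈ univ.filter (fun E => j ∈ E), w i E) ∧
    ∀ i E, 0 < w i E → Realised c a i E

/-- `m` of the `a_j` form a set `B` such that the elements of `N + B` are consecutive primes for infinitely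
many `N` -/
def Consecutive {k : ℕ} (m : ℕ) (a : Fin k → ℤ) : Prop :=
  ∃ B : Finset ℤ, (∀ x ∈ B, ∃ j, a j = x) ∧ B.card = m ∧
    {N : ℕ | ∀ z : ℤ, (∃ x ∈ B, ∃ y ∈ B, x ≤ z ∧ z ≤ y) →
      (((N : ℤ) + z).toNat.Prime ↔ z ∈ B)}.Infinite

open Classical in
theorem result :
    (∀ (r k : ℕ) (η : ℝ), 1 ≤ k → 0 < η → ∃ δ C : ℝ, 0 < δ ∧
      ∀ (c : ℕ → Fin r) (n : ℕ) (A : Fin k → Finset ℤ), 1 ≤ n → (∀ j, (A j).card ≤ n) →
        (((Fintype.piFinset A).filter
          (fun a => Admissible a ∧ ¬ Quarter η c a)).card : ℝ) ≤ C * (n : ℝ) ^ ((k : ℝ) - δ)) ∧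
    (∀ m k : ℕ, 2 ≤ m → (8 * m ^ 2 ≤ k ∨ (m = 2 ∧ k = 5)) → ∃ δ C : ℝ, 0 < δ ∧
      ∀ (n : ℕ) (A : Fin k → Finset ℤ), 1 ≤ n → (∀ j, (A j).card ≤ n) →
        (((Fintype.piFinset A).filter
          (fun a => Admissible a ∧ ¬ Consecutive m a)).card : ℝ) ≤ C * (n : ℝ) ^ ((k : ℝ) - δ)) := by
  constructor
  · intro r k η hk hη
    have hkR : (1 : ℝ) ≤ k := by exact_mod_cast hk
    set η' : ℝ := min η (1 / (8 * k)) with hη'
    have hη'0 : 0 < η' := lt_min hη (by positivity)
    have hη'1 : η' ≤ η := min_le_left _ _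
    have hη'2 : η' ≤ 1 / (8 * k) := min_le_right _ _
    have hη'3 : η' < 1 / 4 := by
      refine lt_of_le_of_lt hη'2 ?_
      rw [div_lt_div_iff₀ (by positivity) (by norm_num)]
      linarith
    obtain ⟨δ, C, hδ, _, hC, h⟩ := Pool.Agent.H21.QT.quarter r k hk η' hη'0
    refine ⟨δ, C, hδ, fun c n A hn hA => ?_⟩
    have hr : 1 ≤ r := lt_of_le_of_lt (Nat.zero_le _) (c 0).2
    have hrR : (1 : ℝ) ≤ r := by exact_mod_cast hr
    refine le_trans ?_ (h c n A hn hA)
    have hsub : (Fintype.piFinset A).filter (fun a => Admissible a ∧ ¬ Quarter η c a) ⊆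
        (Fintype.piFinset A).filter (fun a => Pool.Agent.H21.QT.AdT a ∧
          ¬ Pool.Agent.H21.QT.Quarter η' c a) := by
      intro a ha
      rw [mem_filter] at ha ⊢
      refine ⟨ha.1, ha.2.1, fun hq => ha.2.2 ⟨?_, ?_⟩⟩
      · obtain ⟨i, E, hE, hR⟩ :=
          Pool.Agent.H21.QT.quarter_large hr η' hη'3 hk c a hq
        refine ⟨i, E, ?_, hR⟩
        have h1 : (k : ℝ) - 1 / 2 ≤ 4 * r * E.card := by
          have h2 : (k : ℝ) * ((1 / 4 - 1 / (8 * k)) / r) ≤ E.card := by
            refine le_trans ?_ hE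
            gcongr
          have h3 : (k : ℝ) * ((1 / 4 - 1 / (8 * k)) / r) * (4 * r) = k - 1 / 2 := by
            field_simp
            ring
          have h4 : (k : ℝ) * ((1 / 4 - 1 / (8 * k)) / r) * (4 * r) ≤ E.card * (4 * r) :=
            mul_le_mul_of_nonneg_right h2 (by positivity)
          linarith
        have h5 : k ≤ 4 * r * E.card := by
          by_contra hlt
          push Not at hlt
          have h6 : 4 * r * E.card + 1 ≤ k := hlt
          have h7 : (4 * r * E.card + 1 : ℝ) ≤ k := by exact_mod_cast h6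
          linarith
        rw [div_le_iff₀ (by positivity)]
        have h8 : (k : ℝ) ≤ 4 * r * E.card := by exact_mod_cast h5
        linarith
      · obtain ⟨w, hw0, hw1, hw2, hw3⟩ := hq
        refine ⟨w, hw0, hw1, fun j => le_trans ?_ (hw2 j), hw3⟩
        gcongr
    exact_mod_cast card_le_card hsub
  · rintro m k hm (hk | ⟨rfl, rfl⟩)
    swap
    · obtain ⟨δ, C, hδ, _, hC, h⟩ := Pool.Agent.H21.QT.cons5
      refine ⟨δ, C, hδ, fun n A hn hA => ?_⟩
      refine le_trans ?_ (h n A hn hA)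
      have hsub : (Fintype.piFinset A).filter (fun a => Admissible a ∧ ¬ Consecutive 2 a) ⊆
          (Fintype.piFinset A).filter (fun a => Pool.Agent.H21.QT.AdT a ∧
            ∀ i j, ¬ Pool.Agent.H21.QT.GapP (a i) (a j)) := by
        intro a ha
        rw [mem_filter] at ha ⊢
        refine ⟨ha.1, ha.2.1, fun i j hij => ha.2.2 ⟨{a i, a j}, ?_, card_pair hij.1.ne, ?_⟩⟩
        · intro x hx
          simp only [mem_insert, mem_singleton] at hx
          rcases hx with rfl | rfl
          · exact ⟨i, rfl⟩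
          · exact ⟨j, rfl⟩
        · refine hij.2.mono ?_
          rintro N ⟨hNx, hNy, hN⟩ z ⟨x, hx, y, hy, hxz, hzy⟩
          have hlt := hij.1
          simp only [mem_insert, mem_singleton] at hx hy ⊢
          have hiz : a i ≤ z := by
            rcases hx with rfl | rfl <;> omega
          have hzj : z ≤ a j := by
            rcases hy with rfl | rfl <;> omega
          constructor
          · intro hz
            by_contra hne
            push Not at hne
            exact hN z (lt_of_le_of_ne hiz (Ne.symm hne.1)) (lt_of_le_of_ne hzj hne.2) hz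
          · rintro (rfl | rfl)
            · exact hNx
            · exact hNy
      exact_mod_cast card_le_card hsub
    obtain ⟨δ, C, hδ, _, hC, h⟩ := Pool.Agent.H21.QT.cons_m m k hm hk
    refine ⟨δ, C, hδ, fun n A hn hA => ?_⟩
    refine le_trans ?_ (h n A hn hA)
    have hsub : (Fintype.piFinset A).filter (fun a => Admissible a ∧ ¬ Consecutive m a) ⊆
        (Fintype.piFinset A).filter (fun a => Pool.Agent.H21.QT.AdT a ∧
          ∀ E : Finset (Fin k), (E.image a).card = m → ¬ Pool.Agent.H21.QT.ConsP (E.image a)) := by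
      intro a ha
      rw [mem_filter] at ha ⊢
      refine ⟨ha.1, ha.2.1, fun E hE hcons => ha.2.2 ⟨E.image a, ?_, hE, hcons⟩⟩
      intro x hx
      obtain ⟨j, _, hj⟩ := mem_image.1 hx
      exact ⟨j, hj⟩
    exact_mod_cast card_le_card hsub

end Pool.Agent.H21.Old.QuarterOfTuples
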